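import Pool.Agent.Results.MP_fc7d68_al.Undecidable
import Pool.Agent.Y669.TA.SysU

/-! Linear resolutions over one fixed Koszul algebra: not semidecidable, uniformly in the field.
Stronger form of `Undecidable`. -/

set_option autoImplicit false

namespace Pool.Agent.Results.MP_fc7d68_al.NotSemidecidable

open Turing Relation Pool.Agent.Helper522.Kos Pool.Agent.Helper522.Kos.Src
open Pool.Agent.Helper522.Kos.Queue Pool.Agent.Helper522.Kos.Univ
open Turing.PartrecToTM2 (trNat)
open Pool.Agent.Results.MP_fc7d68_al.Undecidable

theorem exists_source' : ∃ (S : Type) (_ : Fintype S) (_ : DecidableEq S)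
    (Pr : S → S → List S) (κ : S) (u : ℕ → List S), (∀ x y, Pr x y ≠ []) ∧
    (∀ g : S → ℕ, Computable fun n => (u n).map g) ∧
    ∀ n, Sol Pr κ (u n) ↔ (Univ.u n).Dom := by
  classical
  obtain ⟨Λ, i1, i2, M, hM⟩ := exists_machine
  let S := Queue.Sym (TM2to1.Γ' PartrecToTM2.K' (fun _ => PartrecToTM2.Γ')) Λ
  have fK : Finite PartrecToTM2.K' := by
    refine Finite.of_injective (fun k : PartrecToTM2.K' => match k with
      | .main => (0 : Fin 4)
      | .rev => 1
      | .aux => 2
      | .stack => 3) ?_
    intro a b h
    cases a <;> cases b <;> simp_all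
  have fG : Finite (TM2to1.Γ' PartrecToTM2.K' (fun _ => PartrecToTM2.Γ')) :=
    inferInstanceAs (Finite (Bool × (PartrecToTM2.K' → Option PartrecToTM2.Γ')))
  have fS : Finite S := inferInstanceAs (Finite (Queue.Sym _ _))
  let iF : Fintype S := Fintype.ofFinite S
  let u : ℕ → List S := fun n => initWord (sym true .cons :: (trNat n).reverse.map (sym false))
  refine ⟨S, iF, inferInstance, prod M, .kill, u, ?_, ?_, ?_⟩
  · intro x y h
    rcases prod_length M x y with h1 | h1
    · rw [h] at h1; simp at h1
    · rw [h] at h1; simp at h1
  · intro g
    have e : ∀ n, (u n).map g = if ((trNat n).map fun a => g (.cell (sym false a))).length % 2 = 1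
        then g .mark :: g (.head default (sym true .cons)) ::
          ((trNat n).map fun a => g (.cell (sym false a))).reverse
        else g .mark :: g (.cell default) :: g (.head default (sym true .cons)) ::
          ((trNat n).map fun a => g (.cell (sym false a))).reverse := by
      intro n
      simp only [u, initWord, List.length_cons, List.length_map, List.length_reverse,
        List.headI, List.tail_cons]
      by_cases h : (trNat n).length % 2 = 1
      · rw [if_pos h, if_pos (by omega)]
        simp [Function.comp_def]
      · rw [if_neg h, if_neg (by omega)]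
        simp [Function.comp_def]
    simp only [e]
    have hd := digits_computable fun a => g (.cell (sym false a))
    have hp : Primrec fun l : List ℕ => if l.length % 2 = 1
        then g .mark :: g (.head default (sym true .cons)) :: l.reverse
        else g .mark :: g (.cell default) :: g (.head default (sym true .cons)) ::
          l.reverse := by
      refine Primrec.ite (PrimrecRel.comp Primrec.eq (Primrec.nat_mod.comp Primrec.list_length
        (Primrec.const 2)) (Primrec.const 1)) ?_ ?_
      · exact Primrec.list_cons.comp (Primrec.const _) (Primrec.list_cons.comp (Primrec.const _)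
          Primrec.list_reverse)
      · exact Primrec.list_cons.comp (Primrec.const _) (Primrec.list_cons.comp (Primrec.const _)
          (Primrec.list_cons.comp (Primrec.const _) Primrec.list_reverse))
    exact hp.to_comp.comp hd
  · intro n
    rw [← hM n, ← rep_halts M (rep_init _ (by simp))]
    exact ⟨fun ⟨V, hV⟩ => reach_of_sol (prod_length M) V _ (Or.inl (initWord_length _)) hV,
      fun h => sol_of_reach h⟩

/-- There is one algebra `ρ`, given by quadratic or higher forms with integer coefficients, which is
Koszul over every field, such that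
(1) for every recursively enumerable set `W` there is a computable function `f` from numbers to
presentations of modules such that, over every field `K`, all `f n` are inputs of the kind
considered, and the regularity of `f n` is `0` if and only if `n` is not in `W`;
(2) no algorithm gives the answer `true` for all inputs which have regularity `0` over every field
and the answer `false` for all inputs which have regularity `0` over no field;
(3) for every field `K`, the set of the inputs of regularity `0` is not recursively enumerable.
In particular (4): over no field does an algorithm decide, for all Koszul algebras and modules of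
the kind considered, whether the regularity is `0`. -/
theorem result :
    (∃ ρ : RingCode, (∀ (K : Type) [Field K], Koszul K ρ) ∧
      (∀ W : ℕ → Prop, REPred W → ∃ f : ℕ → ModCode, Computable f ∧
        ∀ (K : Type) [Field K] (n : ℕ), Valid K ρ (f n) ∧ (HasReg K ρ (f n) 0 ↔ ¬ W n)) ∧
      (¬ ∃ f : ModCode →. Bool, Partrec f ∧
        ∀ d : ModCode, (∀ (K : Type) [Field K], Valid K ρ d) →
          ((∀ (K : Type) [Field K], HasReg K ρ d 0) → true ∈ f d) ∧
          ((∀ (K : Type) [Field K], ¬ HasReg K ρ d 0) → false ∈ f d)) ∧
      ∀ (K : Type) [Field K], ¬ REPred fun d : ModCode => Valid K ρ d ∧ HasReg K ρ d 0) ∧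
    ∀ (K : Type) [Field K], ¬ ∃ f : RingCode × ModCode →. Bool, Partrec f ∧ Decides K f := by
  refine ⟨?_, Pool.Agent.Results.MP_fc7d68_al.Undecidable.result.1⟩
  obtain ⟨S, _, _, Pr, κ, u, hP, hu, hsol⟩ := exists_source'
  have key : ∀ W : ℕ → Prop, REPred W → ∃ f : ℕ → ModCode, Computable f ∧
      ∀ (K : Type) [Field K] (n : ℕ), Valid K (ringS S) (f n) ∧
        (HasReg K (ringS S) (f n) 0 ↔ ¬ W n) := by
    intro W hW
    obtain ⟨g, hg, h⟩ := Pool.Agent.Y669.TA.SysU.universal hW
    refine ⟨fun n => modS κ hP (u (g n)), (modS_computable κ hP hu).comp hg, fun K _ n => ?_⟩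
    refine ⟨(main κ hP K (u (g n))).1, ?_⟩
    rw [(main κ hP K (u (g n))).2, hsol, h n]
    rfl
  obtain ⟨W, hre, hco⟩ := Pool.Agent.Y669.TA.SysU.exists_re_not_co
  obtain ⟨f, hf, h1⟩ := key W hre
  refine ⟨ringS S, fun K _ => koszul_ringS K, key, ?_, ?_⟩
  · rintro ⟨F, hF, hd⟩
    have hc : ComputablePred W := by
      refine undecidable_of_family hF hf (fun n hn => ?_) (fun n hn => ?_)
      · exact (hd _ fun K _ => (h1 K n).1).1 fun K _ => (h1 K n).2.2 hn
      · exact (hd _ fun K _ => (h1 K n).1).2 fun K _ h => (h1 K n).2.1 h hn
    exact hco hc.not.to_re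
  · intro K _ h
    apply hco
    have h2 : REPred fun n => Valid K (ringS S) (f n) ∧ HasReg K (ringS S) (f n) 0 :=
      Partrec.comp h hf
    exact h2.of_eq fun n => ⟨fun h3 => (h1 K n).2.1 h3.2, fun hn => ⟨(h1 K n).1, (h1 K n).2.2 hn⟩⟩

end Pool.Agent.Results.MP_fc7d68_al.NotSemidecidable
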